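import Pool.Agent.MP_e67b39_co.Main

namespace Pool.Agent.Results.MP_e67b39_co.TauExact

open Pool.Agent.MP_e67b39_co

open Classical in
/-- The value of `τ^(ℤ₃ × ℤ₃ₖ, 3k)` for every positive integer `k`. -/
theorem result (k : ℕ) (hk : 0 < k) : tauHat (ZMod 3 × ZMod (3 * k)) (3 * k) =
    if k = 1 then 4 else if Exceptional k then 3 * k + 2 else 3 * k + 3 := main k hk

end Pool.Agent.Results.MP_e67b39_co.TauExact
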